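import Pool.Agent.W117.GS.Stm

/-!
# GS-MP: comparison principle for bounded functions on the plane
-/

set_option autoImplicit false

open scoped ContDiff
open MeasureTheory Filter Topology Set

namespace Pool.Agent.W925.GS.MP

open Pool.Agent.Helper676.CS (lap dd dx_eq dy_eq contDiff_dd lap_comp_sq)
open Pool.Agent.W117.GS

/-- second derivative test (from Helper676.CS8) -/
theorem snd_test {W : ℝ × ℝ → ℝ} (hW : ContDiff ℝ 2 W) {x₀ : ℝ × ℝ} (hmax : ∀ x, W x ≤ W x₀)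
    (e : ℝ × ℝ) : dd e (dd e W) x₀ ≤ 0 := by
  have hW1 : ContDiff ℝ 1 (dd e W) := by
    have := contDiff_dd (n := 1) (φ := W) (by simpa [one_add_one_eq_two] using hW) e
    simpa using this
  have hline : ∀ t : ℝ, HasDerivAt (fun t : ℝ => x₀ + t • e) e t := by
    intro t
    have := ((hasDerivAt_id t).smul_const e).const_add x₀
    simpa using this
  have d1 : ∀ t : ℝ, HasDerivAt (fun t : ℝ => W (x₀ + t • e)) (dd e W (x₀ + t • e)) t := fun t =>
    ((hW.differentiable (by norm_num)) (x₀ + t • e)).hasFDerivAt.comp_hasDerivAt t (hline t)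
  have d2 : ∀ t : ℝ, HasDerivAt (fun t : ℝ => dd e W (x₀ + t • e))
      (dd e (dd e W) (x₀ + t • e)) t := by
    intro t
    have a := ((hW1.differentiable (by norm_num)) (x₀ + t • e)).hasFDerivAt
    exact a.comp_hasDerivAt t (hline t)
  have e1 : deriv (fun t : ℝ => W (x₀ + t • e)) = fun t => dd e W (x₀ + t • e) :=
    funext fun t => (d1 t).deriv
  by_contra hcon
  push Not at hcon
  have hdd : deriv (deriv (fun t : ℝ => W (x₀ + t • e))) 0 = dd e (dd e W) x₀ := by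
    rw [e1, (d2 0).deriv]; simp
  have hmaxt : IsLocalMax (fun t : ℝ => W (x₀ + t • e)) 0 :=
    Eventually.of_forall fun t => by simpa using hmax (x₀ + t • e)
  have hmin : IsLocalMin (fun t : ℝ => W (x₀ + t • e)) 0 :=
    isLocalMin_of_deriv_deriv_pos (by rw [hdd]; exact hcon) hmaxt.deriv_eq_zero
      (d1 0).continuousAt
  have hconst : (fun t : ℝ => W (x₀ + t • e)) =ᶠ[𝓝 0] fun _ => W x₀ := by
    filter_upwards [hmaxt, hmin] with t ht1 ht2
    have a : W (x₀ + t • e) ≤ W (x₀ + (0 : ℝ) • e) := ht1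
    have b : W (x₀ + (0 : ℝ) • e) ≤ W (x₀ + t • e) := ht2
    have := le_antisymm a b
    simpa using this
  have h1 : deriv (fun t : ℝ => W (x₀ + t • e)) =ᶠ[𝓝 0] fun _ => 0 := by
    have := hconst.deriv
    refine this.trans ?_
    simp
  have h2 : deriv (deriv (fun t : ℝ => W (x₀ + t • e))) 0 = 0 := by
    rw [h1.deriv_eq]; simp
  rw [hdd] at h2
  linarith

theorem dd_sub {f g : ℝ × ℝ → ℝ} (hf : ContDiff ℝ 1 f) (hg : ContDiff ℝ 1 g) (e : ℝ × ℝ) :
    dd e (fun x => f x - g x) = fun x => dd e f x - dd e g x := by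
  funext x
  unfold dd
  have h1 := (hf.differentiable (by norm_num) x).hasFDerivAt.sub
    (hg.differentiable (by norm_num) x).hasFDerivAt
  have h2 : fderiv ℝ (fun x => f x - g x) x = fderiv ℝ f x - fderiv ℝ g x := h1.fderiv
  rw [h2]
  rfl

theorem dd_mul {f : ℝ × ℝ → ℝ} (hf : ContDiff ℝ 1 f) (c : ℝ) (e : ℝ × ℝ) :
    dd e (fun x => c * f x) = fun x => c * dd e f x := by
  funext x
  unfold dd
  have h1 := (hf.differentiable (by norm_num) x).hasFDerivAt.const_mul c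
  have h2 : fderiv ℝ (fun x => c * f x) x = c • fderiv ℝ f x := h1.fderiv
  rw [h2]
  rfl

theorem dd_c1 {f : ℝ × ℝ → ℝ} (hf : ContDiff ℝ 2 f) (e : ℝ × ℝ) : ContDiff ℝ 1 (dd e f) := by
  have := contDiff_dd (n := 1) (φ := f) (by simpa [one_add_one_eq_two] using hf) e
  simpa using this

theorem dd2_sub {f g : ℝ × ℝ → ℝ} (hf : ContDiff ℝ 2 f) (hg : ContDiff ℝ 2 g) (e x : ℝ × ℝ) :
    dd e (dd e (fun x => f x - g x)) x = dd e (dd e f) x - dd e (dd e g) x := by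
  rw [dd_sub (hf.of_le (by norm_num)) (hg.of_le (by norm_num)), dd_sub (dd_c1 hf e) (dd_c1 hg e)]

theorem dd2_mul {f : ℝ × ℝ → ℝ} (hf : ContDiff ℝ 2 f) (c : ℝ) (e x : ℝ × ℝ) :
    dd e (dd e (fun x => c * f x)) x = c * dd e (dd e f) x := by
  rw [dd_mul (hf.of_le (by norm_num)), dd_mul (dd_c1 hf e)]

theorem lap_sq (x : ℝ × ℝ) : lap (fun y : ℝ × ℝ => y.1 ^ 2 + y.2 ^ 2) x = 4 := by
  have h := lap_comp_sq (U := fun s => s) (U' := fun _ => 1) (U'' := fun _ => 0) (z := x)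
    (Eventually.of_forall fun s => hasDerivAt_id s) (hasDerivAt_const _ _)
  rw [h]
  ring

theorem main : PropMP := by
  intro K C u W hK hu hW hub hWb hineq x
  have hC : 0 ≤ C := (abs_nonneg _).trans (hub 0)
  have key : ∀ δ : ℝ, 0 < δ → u x - W x ≤ δ * (x.1 ^ 2 + x.2 ^ 2) + 4 * δ / K := by
    intro δ hδ
    set V : ℝ × ℝ → ℝ := fun x => (u x - W x) - δ * (x.1 ^ 2 + x.2 ^ 2) with hV
    have hq : ContDiff ℝ 2 (fun y : ℝ × ℝ => y.1 ^ 2 + y.2 ^ 2) := by fun_prop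
    have hD : ContDiff ℝ 2 (fun y => u y - W y) := hu.sub hW
    have hqd : ContDiff ℝ 2 (fun y : ℝ × ℝ => δ * (y.1 ^ 2 + y.2 ^ 2)) := contDiff_const.mul hq
    have hVc : ContDiff ℝ 2 V := hD.sub hqd
    have hev : ∀ᶠ y in cocompact (ℝ × ℝ), V y ≤ V 0 := by
      have h1 := tendsto_norm_cocompact_atTop (E := ℝ × ℝ)
      filter_upwards [h1.eventually_ge_atTop (4 * C / δ + 1)] with y hy
      have hn : ‖y‖ ^ 2 ≤ y.1 ^ 2 + y.2 ^ 2 := by
        rw [Prod.norm_def]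
        rcases max_cases ‖y.1‖ ‖y.2‖ with ⟨h, -⟩ | ⟨h, -⟩
        · rw [h, Real.norm_eq_abs, sq_abs]
          nlinarith [sq_nonneg y.2]
        · rw [h, Real.norm_eq_abs, sq_abs]
          nlinarith [sq_nonneg y.1]
      have h0 : 0 ≤ 4 * C / δ := by positivity
      have h2 : 4 * C / δ ≤ y.1 ^ 2 + y.2 ^ 2 := by nlinarith
      have h3 : 4 * C ≤ δ * (y.1 ^ 2 + y.2 ^ 2) := by
        rw [div_le_iff₀ hδ] at h2
        linarith
      have a1 := abs_le.1 (hub y)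
      have a2 := abs_le.1 (hWb y)
      have a3 := abs_le.1 (hub 0)
      have a4 := abs_le.1 (hWb 0)
      simp only [hV, Prod.fst_zero, Prod.snd_zero]
      nlinarith
    obtain ⟨x₀, hx₀⟩ := hVc.continuous.exists_forall_ge' 0 hev
    have s1 := snd_test hVc hx₀ (1, 0)
    have s2 := snd_test hVc hx₀ (0, 1)
    have hlap : ∀ e : ℝ × ℝ, dd e (dd e V) x₀ = dd e (dd e u) x₀ - dd e (dd e W) x₀ -
        δ * dd e (dd e (fun y : ℝ × ℝ => y.1 ^ 2 + y.2 ^ 2)) x₀ := by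
      intro e
      rw [hV, dd2_sub hD hqd, dd2_sub hu hW, dd2_mul hq]
    rw [hlap] at s1 s2
    have hsq := lap_sq x₀
    have h5 := hineq x₀
    unfold lap at hsq h5
    rw [dx_eq, dy_eq] at hsq h5
    have h6 : K * (u x₀ - W x₀) ≤ 4 * δ := by nlinarith
    have h7 : u x₀ - W x₀ ≤ 4 * δ / K := by
      rw [le_div_iff₀ hK]
      linarith
    have h8 := hx₀ x
    simp only [hV] at h8
    have h9 : 0 ≤ δ * (x₀.1 ^ 2 + x₀.2 ^ 2) := by positivity
    linarith
  have hlim : Tendsto (fun δ : ℝ => δ * (x.1 ^ 2 + x.2 ^ 2) + 4 * δ / K) (𝓝[>] 0) (𝓝 0) := by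
    have h : Tendsto (fun δ : ℝ => δ * (x.1 ^ 2 + x.2 ^ 2) + 4 * δ / K) (𝓝 0)
        (𝓝 (0 * (x.1 ^ 2 + x.2 ^ 2) + 4 * 0 / K)) := by
      have hc : Continuous (fun δ : ℝ => δ * (x.1 ^ 2 + x.2 ^ 2) + 4 * δ / K) := by fun_prop
      exact hc.tendsto 0
    simp only [zero_mul, mul_zero, zero_div, add_zero] at h
    exact h.mono_left nhdsWithin_le_nhds
  have h := ge_of_tendsto hlim (by
    filter_upwards [self_mem_nhdsWithin] with δ hδ
    exact key δ hδ)
  linarith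

end Pool.Agent.W925.GS.MP
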